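import Pool.Agent.TH499.NF.Cor

set_option autoImplicit false
set_option linter.unusedSectionVars false

/-! # Closed trails through all vertices of odd degree but two -/

namespace Pool.Agent.R242.HF
open Finset Pool.Agent.H160R2.HF Pool.Agent.TH499.NF
open Pool.Agent.H179R3.HF (K4 IsZ path_join bd_sum bd_mul bd_indicator z2_add_self compl_cut)

universe u v

variable {V : Type u} {E : Type v} [Fintype V] [Fintype E] [DecidableEq V] [DecidableEq E]

/-- a `T`-join in a set of edges connecting all vertices of `T` -/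
theorem Tjoin_sup (G : OrGraph V E) (C : Finset E) (T : V → ZMod 2) (hT : ∑ w, T w = 0)
    (hconn : ∀ x y, T x ≠ 0 → T y ≠ 0 → (G.sub C).Reachable x y) :
    ∃ j : E → ZMod 2, (∀ g, g ∉ C → j g = 0) ∧ ∀ w, Pool.Agent.H179R3.HF.bd G j w = T w := by
  classical
  by_cases hne : ∃ r, T r ≠ 0
  swap
  · push Not at hne
    refine ⟨fun _ => 0, fun _ _ => rfl, fun w => ?_⟩
    rw [hne w]
    unfold Pool.Agent.H179R3.HF.bd
    simp
  obtain ⟨r, hr⟩ := hne
  have key : ∀ w, ∃ j : E → ZMod 2, (∀ g, g ∉ C → j g = 0) ∧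
      ∀ x, T w * Pool.Agent.H179R3.HF.bd G j x =
        T w * ((if w = x then 1 else 0) + (if r = x then 1 else 0)) := by
    intro w
    by_cases hw : T w = 0
    · exact ⟨fun _ => 0, fun _ _ => rfl, fun x => by rw [hw, zero_mul, zero_mul]⟩
    · obtain ⟨j, h1, h2⟩ := path_join G C (hconn w r hw hr)
      exact ⟨j, h1, fun x => by rw [h2]⟩
  choose jw hj1 hj2 using key
  refine ⟨fun g => ∑ w, T w * jw w g, fun g hg => ?_, fun x => ?_⟩
  · exact Finset.sum_eq_zero fun w _ => by rw [hj1 w g hg, mul_zero]
  · rw [bd_sum G univ (fun w g => T w * jw w g) x]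
    have h1 : ∀ w, Pool.Agent.H179R3.HF.bd G (fun g => T w * jw w g) x =
        T w * (if w = x then 1 else 0) + T w * (if r = x then 1 else 0) := by
      intro w
      rw [bd_mul, hj2, mul_add]
    rw [Finset.sum_congr rfl fun w _ => h1 w, Finset.sum_add_distrib, ← Finset.sum_mul, hT,
      zero_mul, add_zero]
    simp

/-- the set of vertices reachable from `a` is not crossed -/
theorem reach_closed (G : OrGraph V E) (A : Finset E) (a : V) (e : E) (he : e ∈ A) :
    (G.sub A).Reachable a (G.t e) ↔ (G.sub A).Reachable a (G.h e) := by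
  by_cases hth : G.t e = G.h e
  · rw [hth]
  have hadj : (G.sub A).Adj (G.t e) (G.h e) := by
    unfold OrGraph.sub
    rw [SimpleGraph.fromRel_adj]
    exact ⟨hth, Or.inl ⟨e, he, rfl, rfl⟩⟩
  exact ⟨fun h => h.trans hadj.reachable, fun h => h.trans hadj.symm.reachable⟩

theorem reach_mem (G : OrGraph V E) (A : Finset E) (X : Finset V)
    (hX : ∀ e ∈ A, (G.t e ∈ X ↔ G.h e ∈ X)) {a b : V} (h : (G.sub A).Reachable a b) :
    a ∈ X ↔ b ∈ X := by
  obtain ⟨p⟩ := h
  induction p with
  | nil => rfl
  | cons hadj _ ih =>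
    refine Iff.trans ?_ ih
    unfold OrGraph.sub at hadj
    rw [SimpleGraph.fromRel_adj] at hadj
    rcases hadj.2 with ⟨e, he, h1, h2⟩ | ⟨e, he, h1, h2⟩
    · rw [← h1, ← h2]; exact hX e he
    · rw [← h1, ← h2]; exact (hX e he).symm

/-- a vertex set with exactly one vertex of odd degree is colourable -/
theorem col_one_odd (G : OrGraph V E) (hb : ∀ X : Finset V, (G.cut X).card ≠ 1) (Y : Finset V)
    (a b : V) (ha : a ∈ Y) (hbY : b ∉ Y) (hodd : Odd (G.deg univ a))
    (hev : ∀ w ∈ Y, w ≠ a → Even (G.deg univ w)) : Col G Y := by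
  classical
  set ρ : V → V := fun x => if x ∈ Y then x else b with hρ
  have hρY : ∀ x ∈ Y, ρ x = x := fun x hx => if_pos hx
  have hρn : ∀ x, x ∉ Y → ρ x = b := fun x hx => if_neg hx
  have hab : a ≠ b := fun h => hbY (h ▸ ha)
  have hpre : ∀ x ∈ Y, ∀ z, ρ z = x ↔ z = x := by
    intro x hx z
    by_cases hz : z ∈ Y
    · rw [hρY z hz]
    · rw [hρn z hz]
      exact ⟨fun h => absurd (h ▸ hx) hbY, fun h => absurd (h ▸ hx) hz⟩
  set H : OrGraph V E := mp G ρ with hH
  have hHt : ∀ e, H.t e = ρ (G.t e) := fun e => rfl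
  have hHh : ∀ e, H.h e = ρ (G.h e) := fun e => rfl
  have hdeg : ∀ x ∈ Y, ∀ F : Finset E, H.deg F x = G.deg F x := by
    intro x hx F
    unfold OrGraph.deg
    congr 2
    · refine Finset.filter_congr fun e _ => ?_
      rw [hHt, hpre x hx]
    · refine Finset.filter_congr fun e _ => ?_
      rw [hHh, hpre x hx]
  -- cuts separating `a` from `b`
  have hcut : ∀ X : Finset V, b ∈ X → a ∉ X → 2 ≤ (H.cut X).card := by
    intro X hbX haX
    rw [hH, cut_mp]
    set X' := univ.filter (fun x => ρ x ∈ X) with hX'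
    have h1 := hb X'
    have hsub : ∀ x ∈ X'ᶜ, x ∈ Y := by
      intro x hx
      by_contra hxY
      apply mem_compl.1 hx
      rw [hX', mem_filter]
      exact ⟨mem_univ _, by rw [hρn x hxY]; exact hbX⟩
    have haX' : a ∈ X'ᶜ := by
      rw [mem_compl, hX', mem_filter]
      rintro ⟨_, h⟩
      rw [hρY a ha] at h
      exact haX h
    have h2 := G.handshake univ X'ᶜ
    rw [compl_cut, Finset.inter_univ, ← Finset.add_sum_erase _ _ haX'] at h2
    have h3 : Even (∑ x ∈ X'ᶜ.erase a, G.deg univ x) := Finset.even_sum _ fun x hx => by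
      rw [mem_erase] at hx
      exact hev x (hsub x hx.2) hx.1
    obtain ⟨k, hk⟩ := h3
    obtain ⟨l, hl⟩ := hodd
    omega
  obtain ⟨g, hg1, hg2⟩ := hoffman H.t H.h (fun _ => -1) (fun _ => 1)
    (fun x => (if x = a then 2 else 0) - (if x = b then 2 else 0)) (fun _ => by norm_num)
    (by rw [Finset.sum_sub_distrib, Finset.sum_ite_eq', Finset.sum_ite_eq']; simp) (by
      intro X
      have hce : ∑ e, ce H.t H.h (fun _ => -1) (fun _ => 1) X e = ((H.cut X).card : ℤ) := by
        rw [OrGraph.cut, Finset.card_filter]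
        push_cast
        refine Finset.sum_congr rfl fun e _ => ?_
        unfold ce
        by_cases h1 : H.t e ∈ X <;> by_cases h2 : H.h e ∈ X <;> simp [h1, h2]
      unfold ff
      rw [hce, Finset.sum_sub_distrib, Finset.sum_ite_eq', Finset.sum_ite_eq']
      by_cases h1 : a ∈ X
      · rw [if_pos h1]
        split_ifs <;> omega
      · rw [if_neg h1]
        by_cases h2 : b ∈ X
        · rw [if_pos h2]
          have := hcut X h2 h1
          omega
        · rw [if_neg h2]; omega)
  set A : Finset E := univ.filter (fun e => g e ≠ 0) with hA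
  have hgA : ∀ e, e ∉ A → g e = 0 := by
    intro e he
    by_contra h
    exact he (mem_filter.2 ⟨mem_univ _, h⟩)
  have hg01 : ∀ e ∈ A, g e = 1 ∨ g e = -1 := by
    intro e he
    have h1 := (mem_filter.1 he).2
    have h2 := hg1 e
    have h3 : (-1 : ℤ) ≤ g e := h2.1
    have h4 : g e ≤ (1 : ℤ) := h2.2
    omega
  -- reachability
  have hreach : (H.sub A).Reachable a b := by
    by_contra hcon
    set K : Finset V := univ.filter (fun x => (H.sub A).Reachable a x) with hK
    have h1 := net_sum H.t H.h g K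
    have h2 : ∑ e, ((if H.t e ∈ K then g e else 0) - (if H.h e ∈ K then g e else 0)) = 0 := by
      refine Finset.sum_eq_zero fun e _ => ?_
      by_cases he : e ∈ A
      · have h3 := reach_closed H A a e he
        have h4 : H.t e ∈ K ↔ H.h e ∈ K := by
          rw [hK, mem_filter, mem_filter]
          simpa using h3
        by_cases h5 : H.t e ∈ K
        · rw [if_pos h5, if_pos (h4.1 h5), sub_self]
        · rw [if_neg h5, if_neg (fun h => h5 (h4.2 h)), sub_self]
      · rw [hgA e he]; simp
    rw [h2, Finset.sum_congr rfl fun x _ => hg2 x, Finset.sum_sub_distrib, Finset.sum_ite_eq',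
      Finset.sum_ite_eq'] at h1
    have haK : a ∈ K := mem_filter.2 ⟨mem_univ _, SimpleGraph.Reachable.refl _⟩
    have hbK : b ∉ K := fun h => hcon (mem_filter.1 h).2
    rw [if_pos haK, if_neg hbK] at h1
    norm_num at h1
  obtain ⟨j, hj1, hj2⟩ := path_join H A hreach
  -- even degrees of `A`
  have hAe : ∀ x, ((H.deg A x : ℕ) : ZMod 2) = 0 := by
    intro x
    have h1 : ∀ e, ((g e : ℤ) : ZMod 2) = if e ∈ A then 1 else 0 := by
      intro e
      by_cases he : e ∈ A
      · rw [if_pos he]
        rcases hg01 e he with h | h <;> rw [h] <;> decide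
      · rw [if_neg he, hgA e he]; simp
    have h2 := congrArg (fun z : ℤ => (z : ZMod 2)) (hg2 x)
    unfold net at h2
    push_cast at h2
    rw [Finset.sum_congr rfl fun e _ => h1 e, Finset.sum_congr rfl fun e _ => h1 e] at h2
    have h3 := bd_indicator H A x
    rw [← h3]
    unfold Pool.Agent.H179R3.HF.bd
    have h4 : ∀ y z : ZMod 2, y - z = 0 → y + z = 0 := by decide
    apply h4
    rw [h2]
    have h5 : (2 : ZMod 2) = 0 := by decide
    rw [h5]
    simp
  refine ⟨fun e => ((if e ∈ A then 1 else 0), (if e ∈ (univ : Finset E) then 1 else 0) + j e),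
    fun x hx => ?_, fun e _ he => ?_⟩
  · have h1 : bd G (fun e => (((if e ∈ A then 1 else 0), (if e ∈ (univ : Finset E) then 1 else 0) +
        j e) : K4)) x = bd H (fun e => (((if e ∈ A then 1 else 0),
        (if e ∈ (univ : Finset E) then 1 else 0) + j e) : K4)) x := by
      rw [hH, bd_mp]
      have h2 : univ.filter (fun z => ρ z = x) = {x} := by
        ext z
        rw [mem_filter, mem_singleton, hpre x hx]
        simp
      rw [h2, Finset.sum_singleton]
    rw [h1]
    unfold bd
    refine Prod.ext ?_ ?_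
    · rw [Prod.fst_add, Prod.fst_sum, Prod.fst_sum]
      have h3 := bd_indicator H A x
      rw [hAe x] at h3
      exact h3
    · rw [Prod.snd_add, Prod.snd_sum, Prod.snd_sum]
      have h3 := Pool.Agent.H179R3.HF.bd_add H
        (fun g => if g ∈ (univ : Finset E) then 1 else 0) j x
      rw [hj2, bd_indicator, hdeg x hx] at h3
      refine Eq.trans h3 ?_
      have hbx : b ≠ x := fun h => hbY (h ▸ hx)
      rw [if_neg hbx, add_zero]
      by_cases hax : a = x
      · rw [if_pos hax, ← hax]
        obtain ⟨l, hl⟩ := hodd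
        rw [hl]
        push_cast
        have h5 : ∀ y : ZMod 2, 2 * y + 1 + 1 = 0 := by decide
        exact h5 _
      · rw [if_neg hax, add_zero]
        exact (ZMod.natCast_eq_zero_iff_even).2 (hev x hx fun h => hax h.symm)
  · have h1 : (if e ∈ A then (1 : ZMod 2) else 0) = 0 := congrArg Prod.fst he
    have h2 : (if e ∈ (univ : Finset E) then (1 : ZMod 2) else 0) + j e = 0 := congrArg Prod.snd he
    by_cases heA : e ∈ A
    · rw [if_pos heA] at h1
      exact one_ne_zero h1
    · rw [if_pos (mem_univ _), hj1 e heA, add_zero] at h2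
      exact one_ne_zero h2

theorem deg_add (G : OrGraph V E) (u v : V) (w : V) :
    (addEdge G u v).deg univ w =
      G.deg univ w + (if u = w then 1 else 0) + (if v = w then 1 else 0) := by
  rw [← deg_insertNone]
  congr 1

/-- an even set `Z` of the graph `G + uv` which connects all vertices of odd degree of `G + uv` -/
theorem core (G : OrGraph V E) (hB : G.Bridgeless) (u v : V) (Z : Finset (Option E))
    (hZ : ∀ w, Even ((addEdge G u v).deg Z w))
    (hconn : ∀ x y, Odd ((addEdge G u v).deg univ x) → Odd ((addEdge G u v).deg univ y) →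
      ((addEdge G u v).sub Z).Reachable x y)
    (h3 : ∀ X : Finset V, (G.cut X).card = 3 → (∀ z, G.cut X ≠ G.cut {z}) →
      (∀ e ∈ G.cut X, some e ∈ Z) → none ∈ Z → NZ4 (contr G X) ∨ NZ4 (contr G Xᶜ)) :
    ∃ φ₂ φ₄ : E → ℤ, G.IsHalfFlowPair φ₂ φ₄ := by
  classical
  set G' := addEdge G u v with hG'
  -- parity of the complement
  have hpar : ∀ x, Pool.Agent.H179R3.HF.bd G' (fun g => if g ∈ Zᶜ then 1 else 0) x =
      ((G'.deg univ x : ℕ) : ZMod 2) := by
    intro x
    rw [bd_indicator]
    have h1 := deg_union G' (disjoint_compl_right (a := Z)) x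
    rw [Finset.union_compl] at h1
    rw [h1]
    push_cast
    rw [(ZMod.natCast_eq_zero_iff_even).2 (hZ x), zero_add]
  obtain ⟨j, hj, hjb⟩ := Tjoin_sup G' Z
    (fun x => Pool.Agent.H179R3.HF.bd G' (fun g => if g ∈ Zᶜ then 1 else 0) x)
    (Pool.Agent.H179R3.HF.sum_bd G' _) (by
      intro x y hx hy
      rw [hpar] at hx hy
      refine hconn x y ?_ ?_
      · rw [← Nat.not_even_iff_odd]
        exact fun h => hx ((ZMod.natCast_eq_zero_iff_even).2 h)
      · rw [← Nat.not_even_iff_odd]
        exact fun h => hy ((ZMod.natCast_eq_zero_iff_even).2 h))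
  set f : Option E → K4 := fun g => ((if g ∈ Z then 1 else 0),
    (if g ∈ Zᶜ then 1 else 0) + j g) with hf
  have hfZ : IsZ G' f := by
    intro x
    refine Prod.ext ?_ ?_
    · rw [Prod.fst_add, Prod.fst_sum, Prod.fst_sum]
      have h1 := bd_indicator G' Z x
      rw [(ZMod.natCast_eq_zero_iff_even).2 (hZ x)] at h1
      exact h1
    · rw [Prod.snd_add, Prod.snd_sum, Prod.snd_sum]
      have h1 := Pool.Agent.H179R3.HF.bd_add G' (fun g => if g ∈ Zᶜ then 1 else 0) j x
      rw [hjb x, z2_add_self] at h1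
      exact h1
  have hin : ∀ g ∈ Z, (f g).1 = 1 := fun g hg => if_pos hg
  have hout1 : ∀ g, g ∉ Z → (f g).1 = 0 := fun g hg => if_neg hg
  have hout : ∀ g, g ∉ Z → f g = (0, 1) := by
    intro g hg
    refine Prod.ext (if_neg hg) ?_
    show (if g ∈ Zᶜ then (1 : ZMod 2) else 0) + j g = 1
    rw [if_pos (mem_compl.2 hg), hj g hg, add_zero]
  have hz : ∀ o, f o ≠ 0 := by
    intro o ho
    by_cases h : o ∈ Z
    · have := hin o h
      rw [ho] at this
      exact zero_ne_one this
    · rw [hout o h] at ho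
      exact one_ne_zero (congrArg Prod.snd ho)
  have hnr := nr_of hfZ hz
  refine main (NI G).card G le_rfl (G.cut_card_ne_one hB) _ u v _ hnr fun X hX => ?_
  by_cases hn : none ∈ Z
  · by_cases hall : ∀ e ∈ G.cut X, some e ∈ Z
    · rcases h3 X hX.1 hX.2 hall hn with h | h
      · exact Or.inr (Or.inl (col_of h))
      · left
        have := col_of h
        rwa [compl_compl] at this
    · push Not at hall
      obtain ⟨e, he, heZ⟩ := hall
      refine Or.inr (Or.inr ⟨e, he, fun h => ?_⟩)
      have h1 := hin none hn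
      rw [← h, hout1 _ heZ] at h1
      exact zero_ne_one h1
  by_cases hex : ∃ e ∈ G.cut X, some e ∈ Z
  · obtain ⟨e, he, heZ⟩ := hex
    refine Or.inr (Or.inr ⟨e, he, fun h => ?_⟩)
    have h1 := hout1 none hn
    rw [← h, hin _ heZ] at h1
    exact one_ne_zero h1
  push Not at hex
  -- now `Z` does not cross `X`, and `X` separates `u` from `v`
  have hsep : ¬ (u ∈ X ↔ v ∈ X) := by
    intro hs
    obtain ⟨g, hg, hgc⟩ := ne_of_zero hnr.c0 hX.1 (hnr.sum_same hs)
    exact hgc (by rw [hout _ (hex g hg), hout _ hn])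
  have hcross : ∀ o ∈ Z, (G'.t o ∈ X ↔ G'.h o ∈ X) := by
    intro o ho
    cases o with
    | none => exact absurd ho hn
    | some e =>
      by_contra hcon
      exact hex e (mem_filter.2 ⟨mem_univ _, hcon⟩) ho
  -- one side without odd vertices
  have hside : ∀ (Y : Finset V), ¬ (u ∈ Y ↔ v ∈ Y) →
      (∀ x ∈ Y, ¬ Odd (G'.deg univ x)) → Col G Y := by
    intro Y hY hno
    have hdegY : ∀ x ∈ Y, Even (G.deg univ x + (if u = x then 1 else 0) +
        (if v = x then 1 else 0)) := by
      intro x hx
      have h1 := hno x hx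
      rw [Nat.not_odd_iff_even, hG', deg_add] at h1
      exact h1
    by_cases hu : u ∈ Y
    · have hv : v ∉ Y := fun hv => hY ⟨fun _ => hv, fun _ => hu⟩
      refine col_one_odd G (G.cut_card_ne_one hB) Y u v hu hv ?_ fun w hw hwu => ?_
      · have h1 := hdegY u hu
        have h2 : ¬ v = u := fun h => hv (h ▸ hu)
        rw [if_pos rfl, if_neg h2, add_zero] at h1
        rw [← Nat.not_even_iff_odd]
        intro h4
        exact (Nat.not_even_iff_odd.2 h4.add_one) h1
      · have h1 := hdegY w hw
        have h2 : ¬ v = w := fun h => hv (h ▸ hw)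
        rw [if_neg (Ne.symm hwu), if_neg h2, add_zero, add_zero] at h1
        exact h1
    · have hv : v ∈ Y := by
        by_contra hv
        exact hY ⟨fun c => absurd c hu, fun c => absurd c hv⟩
      refine col_one_odd G (G.cut_card_ne_one hB) Y v u hv hu ?_ fun w hw hwv => ?_
      · have h1 := hdegY v hv
        have h2 : ¬ u = v := fun h => hu (h ▸ hv)
        rw [if_pos rfl, if_neg h2, add_zero] at h1
        rw [← Nat.not_even_iff_odd]
        intro h4
        exact (Nat.not_even_iff_odd.2 h4.add_one) h1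
      · have h1 := hdegY w hw
        have h2 : ¬ u = w := fun h => hu (h ▸ hw)
        rw [if_neg (Ne.symm hwv), if_neg h2, add_zero, add_zero] at h1
        exact h1
  by_cases hO : ∃ x ∈ X, Odd (G'.deg univ x)
  · right; left
    obtain ⟨x, hx, hxo⟩ := hO
    refine hside Xᶜ (fun h => hsep ?_) fun y hy hyo => ?_
    · rw [mem_compl, mem_compl, not_iff_not] at h
      exact h
    · exact (mem_compl.1 hy) ((reach_mem G' Z X hcross (hconn x y hxo hyo)).1 hx)
  · left
    push Not at hO
    exact hside X hsep fun x hx h => (Nat.not_odd_iff_even.2 ((Nat.not_odd_iff_even.1 (hO x hx)))) h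

/-- the number of vertices of odd degree is even -/
theorem exists_other_odd (G : OrGraph V E) (u : V) (hu : Odd (G.deg univ u)) :
    ∃ v, v ≠ u ∧ Odd (G.deg univ v) := by
  classical
  by_contra hcon
  push Not at hcon
  have h2 := G.handshake univ univ
  have hcu : G.cut univ = ∅ := by
    rw [OrGraph.cut, Finset.filter_eq_empty_iff]
    intro e _ h
    exact h ⟨fun _ => mem_univ _, fun _ => mem_univ _⟩
  rw [hcu, Finset.empty_inter, Finset.card_empty, add_zero,
    ← Finset.add_sum_erase _ _ (mem_univ u)] at h2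
  have h3 : Even (∑ x ∈ univ.erase u, G.deg univ x) := Finset.even_sum _ fun x hx => by
    rw [mem_erase] at hx
    exact Nat.not_odd_iff_even.1 (hcon x hx.1)
  obtain ⟨k, hk⟩ := h3
  obtain ⟨l, hl⟩ := hu
  omega

/-- closed trails: the form in which the two exceptional vertices are the ends of the new edge -/
theorem closed_aux (G : OrGraph V E) (hB : G.Bridgeless) (u v : V) (C : Finset E)
    (hC : ∀ w, Even (G.deg C w))
    (hconn : ∀ x y, Odd (G.deg univ x + (if u = x then 1 else 0) + (if v = x then 1 else 0)) →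
      Odd (G.deg univ y + (if u = y then 1 else 0) + (if v = y then 1 else 0)) →
      (G.sub C).Reachable x y) :
    ∃ φ₂ φ₄ : E → ℤ, G.IsHalfFlowPair φ₂ φ₄ := by
  classical
  have hle : G.sub C ≤ (addEdge G u v).sub (C.map Function.Embedding.some) := by
    intro x y hxy
    unfold OrGraph.sub at hxy ⊢
    rw [SimpleGraph.fromRel_adj] at hxy ⊢
    refine ⟨hxy.1, ?_⟩
    rcases hxy.2 with ⟨e, he, h1, h2⟩ | ⟨e, he, h1, h2⟩
    · exact Or.inl ⟨some e, by simpa using he, h1, h2⟩
    · exact Or.inr ⟨some e, by simpa using he, h1, h2⟩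
  refine core G hB u v (C.map Function.Embedding.some) (fun w => by rw [deg_some]; exact hC w)
    (fun x y hx hy => ?_) fun X _ _ _ hn => ?_
  · rw [deg_add] at hx hy
    exact (hconn x y hx hy).mono hle
  · simp at hn

/-- closed trails through all vertices of odd degree but two -/
theorem closed (G : OrGraph V E) (hB : G.Bridgeless) (u v : V) (C : Finset E)
    (hC : ∀ w, Even (G.deg C w))
    (hconn : ∀ x y, Odd (G.deg univ x) → Odd (G.deg univ y) → x ≠ u → x ≠ v → y ≠ u → y ≠ v →
      (G.sub C).Reachable x y) :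
    ∃ φ₂ φ₄ : E → ℤ, G.IsHalfFlowPair φ₂ φ₄ := by
  classical
  -- the case of two different exceptional vertices of odd degree
  have key : ∀ u v : V, u ≠ v → Odd (G.deg univ u) → Odd (G.deg univ v) →
      (∀ x y, Odd (G.deg univ x) → Odd (G.deg univ y) → x ≠ u → x ≠ v → y ≠ u → y ≠ v →
        (G.sub C).Reachable x y) → ∃ φ₂ φ₄ : E → ℤ, G.IsHalfFlowPair φ₂ φ₄ := by
    intro u v huv hu hv h
    have h1 : ∀ x, Odd (G.deg univ x + (if u = x then 1 else 0) + (if v = x then 1 else 0)) →
        Odd (G.deg univ x) ∧ x ≠ u ∧ x ≠ v := by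
      intro x hx
      by_cases hxu : u = x
      · have hxv : ¬ v = x := fun h => huv (hxu.trans h.symm)
        rw [if_pos hxu, if_neg hxv, add_zero] at hx
        rw [hxu] at hu
        exact absurd hx (Nat.not_odd_iff_even.2 hu.add_one)
      · by_cases hxv : v = x
        · rw [if_neg hxu, if_pos hxv, add_zero] at hx
          rw [hxv] at hv
          exact absurd hx (Nat.not_odd_iff_even.2 hv.add_one)
        · rw [if_neg hxu, if_neg hxv, add_zero, add_zero] at hx
          exact ⟨hx, Ne.symm hxu, Ne.symm hxv⟩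
    refine closed_aux G hB u v C hC fun x y hx hy => ?_
    obtain ⟨a1, a2, a3⟩ := h1 x hx
    obtain ⟨b1, b2, b3⟩ := h1 y hy
    exact h x y a1 b1 a2 a3 b2 b3
  -- one exceptional vertex of odd degree
  have key1 : ∀ u : V, Odd (G.deg univ u) →
      (∀ x y, Odd (G.deg univ x) → Odd (G.deg univ y) → x ≠ u → y ≠ u →
        (G.sub C).Reachable x y) → ∃ φ₂ φ₄ : E → ℤ, G.IsHalfFlowPair φ₂ φ₄ := by
    intro u hu h
    obtain ⟨v', hv', hvo⟩ := exists_other_odd G u hu
    exact key u v' (Ne.symm hv') hu hvo fun x y a b c _ d _ => h x y a b c d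
  by_cases hu : Odd (G.deg univ u)
  · by_cases hv : Odd (G.deg univ v)
    · by_cases huv : u = v
      · subst huv
        exact key1 u hu fun x y a b c d => hconn x y a b c c d d
      · exact key u v huv hu hv hconn
    · refine key1 u hu fun x y a b c d => hconn x y a b c ?_ d ?_
      · rintro rfl; exact hv a
      · rintro rfl; exact hv b
  · by_cases hv : Odd (G.deg univ v)
    · refine key1 v hv fun x y a b c d => hconn x y a b ?_ c ?_ d
      · rintro rfl; exact hu a
      · rintro rfl; exact hu b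
    · refine closed_aux G hB u u C hC fun x y hx hy => ?_
      have h1 : ∀ x, Odd (G.deg univ x + (if u = x then 1 else 0) + (if u = x then 1 else 0)) →
          Odd (G.deg univ x) := by
        intro x hx
        split_ifs at hx with h
        · obtain ⟨k, hk⟩ := hx
          exact ⟨k - 1, by omega⟩
        · exact hx
      have hx' := h1 x hx
      have hy' := h1 y hy
      refine hconn x y hx' hy' ?_ ?_ ?_ ?_
      · rintro rfl; exact hu hx'
      · rintro rfl; exact hv hx'
      · rintro rfl; exact hu hy'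
      · rintro rfl; exact hv hy'

end Pool.Agent.R242.HF
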